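import Pool.Agent.J6H46.G.Plane

/-!
# The square is never the limit shape of planar first-passage percolation

First-passage percolation on `Z ^ 2` with arbitrary independent identically distributed
nonnegative weights, no moment assumption.  The time constant of `(1, 1)` is strictly larger than
the time constant of `(1, 0)` as soon as the latter is positive; so the limit shape is not the
square.

Idea.  Suppose that both are equal to `mu > 0`.  Then the time constant is `mu` times the sup norm.
Light edges are the edges with weight at most a large quantile `b`; heavy edges are so rare that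
there are paths of light edges around every point at a random scale with exponential tails, so
passage times are regularised by jumps of a fixed price at the end points.  Let `Phi l` be a
quantile of the excess of the cost of crossing a tube of length `l` around the diagonal.
All deficits are controlled by `Phi`, as one may choose among many parallel tubes; they are
`o(Phi l)` with high probability.  Paths with a small excess are localised, so a path through many
slabs either stays in place and meets a slab with an excess of the order of `Phi l`, or moves and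
pays for it; this gives `Phi (r l) >= r ^ (1 - eps) Phi l`.  The inequality of Efron and Stein for
truncated weights gives `Phi l <= C l ^ (1 - delta)` for some fixed `delta > 0`.  This is a
contradiction.
-/

set_option autoImplicit false
open MeasureTheory ProbabilityTheory Filter Topology

namespace Pool.Agent.Results.MP_081102_pr.NeverSquare

/-- First-passage time from `0` to `x`: the infimum, over the nearest-neighbour paths `γ` from `0`
to `x`, of the sum of the weights of the edges of `γ`.  The weight of the edge `{y, y + e_i}`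
is `τ (y, i)`. -/
noncomputable def passageTime {Ω : Type} (τ : (Fin 2 → ℤ) × Fin 2 → Ω → ℝ) (ω : Ω)
    (x : Fin 2 → ℤ) : ℝ :=
  sInf {t : ℝ | ∃ k : ℕ, ∃ γ : Fin (k+1) → Fin 2 → ℤ,
    γ 0 = 0 ∧ γ (Fin.last k) = x ∧
    (∀ j : Fin k, ∑ i, |γ j.succ i - γ j.castSucc i| = 1) ∧
    t = ∑ j : Fin k, ∑ i : Fin 2,
      ((if γ j.succ = γ j.castSucc + Pi.single i 1 then τ (γ j.castSucc, i) ω else 0) +
       (if γ j.castSucc = γ j.succ + Pi.single i 1 then τ (γ j.succ, i) ω else 0))}

/-- `T(0, n z) / n` converges to `a` in probability. -/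
def TimeConstant {Ω : Type} [MeasurableSpace Ω] (P : Measure Ω)
    (τ : (Fin 2 → ℤ) × Fin 2 → Ω → ℝ) (z : Fin 2 → ℤ) (a : ℝ) : Prop :=
  ∀ ε : ℝ, 0 < ε → Tendsto (fun n : ℕ =>
    P {ω | ε < |passageTime τ ω (fun i => (n : ℤ) * z i) / (n : ℝ) - a|}) atTop (𝓝 0)

/-- For independent identically distributed nonnegative weights on the edges of `ℤ ^ 2`, let `μ`
be the time constant, extended by homogeneity to the plane, and suppose that `μ (1, 0) > 0`
(which is the case if and only if the weights vanish with probability less than `1 / 2`).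
Then `μ (1, 0) < μ (1, 1)`, and the unit ball of `μ` is not the square
`max (|x_1|, |x_2|) ≤ 1 / μ (1, 0)`. -/
theorem result :
  ∀ (Ω : Type) [MeasurableSpace Ω] (P : Measure Ω) [IsProbabilityMeasure P]
    (τ : (Fin 2 → ℤ) × Fin 2 → Ω → ℝ),
    (∀ e, Measurable (τ e)) →
    iIndepFun τ P →
    (∀ e e', IdentDistrib (τ e) (τ e') P P) →
    (∀ e ω, 0 ≤ τ e ω) →
    ∀ (μ : (Fin 2 → ℝ) → ℝ),
    (∀ z : Fin 2 → ℤ, TimeConstant P τ z (μ fun i => (z i : ℝ))) →
    (∀ (t : ℝ) (x : Fin 2 → ℝ), 0 ≤ t → μ (t • x) = t * μ x) →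
    0 < μ ![1, 0] →
    μ ![1, 0] < μ ![1, 1] ∧
      {x : Fin 2 → ℝ | μ x ≤ 1} ≠ {x : Fin 2 → ℝ | ∀ i, |x i| ≤ 1 / μ ![1, 0]} := by
  intro Ω _ P _ τ hm hind hid hnn μ hμ hhom hpos
  have hlt : μ ![1, 0] < μ ![1, 1] := by
    have h10 : (fun i => (((![1, 0] : Fin 2 → ℤ) i : ℤ) : ℝ)) = ![1, 0] := by
      funext i; fin_cases i <;> simp
    have h11 : (fun i => (((![1, 1] : Fin 2 → ℤ) i : ℤ) : ℝ)) = ![1, 1] := by
      funext i; fin_cases i <;> simp
    have h0 := hμ ![1, 0]
    have h1 := hμ ![1, 1]
    rw [h10] at h0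
    rw [h11] at h1
    have hFP : IsProbabilityMeasure (P.map (τ (0, 0))) :=
      Measure.isProbabilityMeasure_map (hm _).aemeasurable
    have hu : (Pool.Agent.J6H99.FPP.u 0 : Fin (0 + 2) → ℤ) = ![1, 0] := by
      funext i; fin_cases i <;> rfl
    have ho : (Pool.Agent.J6H99.FPP.one : Fin (0 + 2) → ℤ) = ![1, 1] := by
      funext i; fin_cases i <;> rfl
    refine Pool.Agent.J6H46.G.two_lt (e := 0) (F := P.map (τ (0, 0))) hpos ?_ ?_
    · rw [hu]
      exact Pool.Agent.J6H46.G.PL_of (e := 0) P τ hm hind hid hnn _ rfl _ _ h0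
    · rw [ho]
      exact Pool.Agent.J6H46.G.PL_of (e := 0) P τ hm hind hid hnn _ rfl _ _ h1
  refine ⟨hlt, fun heq => ?_⟩
  have h2 : (1 / μ ![1, 0]) • (![1, 1] : Fin 2 → ℝ) ∈
      {x : Fin 2 → ℝ | ∀ i, |x i| ≤ 1 / μ ![1, 0]} := by
    intro i
    have h3 : 0 ≤ (μ ![1, 0])⁻¹ := by positivity
    fin_cases i <;> simp [abs_of_nonneg h3]
  rw [← heq] at h2
  have h3 : μ ((1 / μ ![1, 0]) • (![1, 1] : Fin 2 → ℝ)) ≤ 1 := h2
  rw [hhom _ _ (by positivity), div_mul_eq_mul_div, one_mul, div_le_one hpos] at h3
  linarith

end Pool.Agent.Results.MP_081102_pr.NeverSquare
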